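import Pool.Agent.W2helper61.Mes.Defs

/-!
# Sparse sure bets on all languages in NP: the definitions of the proof
-/

set_option autoImplicit false

namespace Pool.Agent.W2helper50.MG

open Pool.Agent.NPC Pool.Agent.H628R3.RO
open Pool.Agent.W2helper61.Mes (ones str pre IsDensity Names Approx)

/-- the number of the stage of the length `m` -/
def st (g : ℕ → ℕ) (m : ℕ) : ℕ := Nat.sqrt (Nat.sqrt (min (g m) m))

/-- `m` is the first length of its stage -/
def act (g : ℕ → ℕ) (m : ℕ) : Prop := st g (m - 1) < st g m

instance (g : ℕ → ℕ) (m : ℕ) : Decidable (act g m) := inferInstanceAs (Decidable (_ < _))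

/-- the place of the planted bit for the length `m`, the machine `i` and the string number
`2 ^ m - 1 + t` -/
def pl (m i t : ℕ) : List Bool :=
  List.replicate (2 ^ m) true ++ false :: (List.replicate i true ++ false :: List.replicate t true)

/-- the places of the planted bits -/
def PL (g : ℕ → ℕ) : Set (List Bool) :=
  {y | ∃ m i t, act g m ∧ i < st g m ∧ t < 3 * st g m ∧ y = pl m i t}

/-- the bits of `w` agree with the predictions for the length `m` and the machine `i` -/
def Agr (g : ℕ → ℕ) (v : ℕ → ℕ → ℕ → Bool) (m i : ℕ) (w : List Bool) : Prop :=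
  ∀ t < 3 * st g m, 2 ^ m - 1 + t < w.length → w.getD (2 ^ m - 1 + t) false = v m i t

open Classical in
/-- the capital of the player who starts with capital `1` and bets everything on all the
predictions for the length `m` and the machine `i` -/
noncomputable def EN (g : ℕ → ℕ) (v : ℕ → ℕ → ℕ → Bool) (m i : ℕ) (w : List Bool) : ℕ :=
  if Agr g v m i w then 2 ^ (min (3 * st g m) (w.length - (2 ^ m - 1))) else 0

/-- the null cover: a mixture of the players -/
noncomputable def dd (g : ℕ → ℕ) (v : ℕ → ℕ → ℕ → Bool) (k : ℕ) (w : List Bool) : ℝ :=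
  (1 / 2) ^ k * (1 + ∑ m ∈ (Finset.range w.length.size).filter (act g),
    ∑ i ∈ Finset.range (st g m), (1 / 2) ^ (i + st g m + 2) * ((EN g v m i w : ℝ) - 1))

/-- `g` is computable in polynomial time in unary -/
def UnaryPoly (g : ℕ → ℕ) : Prop :=
  ∃ G : List Bool → List Bool, PolyTime G ∧ ∀ n, G (ones n) = ones (g n)

end Pool.Agent.W2helper50.MG
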