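import Pool.Agent.W2helper50.MG.Stm2
import Pool.Agent.W2helper47.MG.Plant
import Pool.Agent.W2helper61.Dim.Final
import Pool.Agent.H620R2.Gauge.C

/-!
# The planted predictions for general machines, and the enumeration
-/

set_option autoImplicit false

namespace Pool.Agent.W2helper50.MG

open Filter Pool.Agent.NPC
open Pool.Agent.H620R2.Gauge (Oracle IsPSPACE SAlg)
open Pool.Agent.W2helper61.Mes (str)
open Pool.Agent.W2helper47.MG (pl_inj length_pl exists_fix Cnd)

open Classical in
/-- the operator whose fixed point is the planted oracle -/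
noncomputable def Op (g : ℕ → ℕ) (V : ℕ → Oracle → List Bool → Prop) (lb : ℕ → ℕ → ℕ)
    (B C : Oracle) : Oracle := fun y =>
  if ∃ m i t, y = pl m i t ∧ Cnd g lb m i t then
    decide (∃ m i t, y = pl m i t ∧ Cnd g lb m i t ∧ V i C (str (2 ^ m - 1 + t)))
  else B y

theorem op_congr {g : ℕ → ℕ} {V : ℕ → Oracle → List Bool → Prop} {lb : ℕ → ℕ → ℕ}
    (h : Local V lb) (B C C' : Oracle) (v : List Bool)
    (hC : ∀ u : List Bool, u.length < v.length → C u = C' u) :
    Op g V lb B C v = Op g V lb B C' v := by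
  classical
  unfold Op
  congr 1
  congr 1
  refine propext (exists_congr fun m => exists_congr fun i => exists_congr fun t =>
    and_congr_right fun hv => and_congr_right fun hc => ?_)
  obtain ⟨-, -, -, h4, h5⟩ := hc
  have h6 : (str (2 ^ m - 1 + t)).length = m := by
    rw [Pool.Agent.W2helper61.Mes.length_str_eq]
    have : 0 < 2 ^ m := by positivity
    rw [pow_succ]
    omega
  refine h i C C' _ fun u hu => hC u ?_
  rw [h6] at hu
  rw [hv]
  exact lt_of_le_of_lt (hu.trans h5) (length_pl m i t)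

theorem plant2 : PLANT2 := by
  classical
  intro g V lb h
  choose Φ hΦ using fun B => exists_fix (Op g V lb B) fun C C' v hv => op_congr h B C C' v hv
  refine ⟨Φ, fun B y hy => ?_, fun B m i t h1 h2 h3 h4 h5 => ?_⟩
  · rw [← hΦ B]
    show (if ∃ m i t, y = pl m i t ∧ Cnd g lb m i t then _ else B y) = B y
    rw [if_neg]
    rintro ⟨m, i, t, hy', hc⟩
    exact hy ⟨m, i, t, hc.1, hc.2.1, hc.2.2.1, hy'⟩
  · have hc : Cnd g lb m i t := ⟨h1, h2, h3, h4, h5⟩
    have h6 : Φ B (pl m i t) = decide (∃ m' i' t', pl m i t = pl m' i' t' ∧ Cnd g lb m' i' t' ∧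
        V i' (Φ B) (str (2 ^ m' - 1 + t'))) := by
      conv_lhs => rw [← hΦ B]
      show (if ∃ m' i' t', pl m i t = pl m' i' t' ∧ Cnd g lb m' i' t' then _ else B (pl m i t)) = _
      rw [if_pos ⟨m, i, t, rfl, hc⟩]
    rw [h6, decide_eq_true_iff]
    constructor
    · rintro ⟨m', i', t', he, -, ha⟩
      obtain ⟨rfl, rfl, rfl⟩ := pl_inj he
      exact ha
    · intro ha
      exact ⟨m, i, t, rfl, hc, ha⟩

/-- the enumeration for `PSPACE` -/
theorem psenum0 : ∃ (V : ℕ → Oracle → List Bool → Prop) (lb : ℕ → ℕ → ℕ), Local V lb ∧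
    (∀ i, ∀ᶠ m in atTop, lb i m ≤ 2 ^ m) ∧
    ∀ (A : Oracle) (L : Set (List Bool)), IsPSPACE A L → ∃ i, ∀ x, x ∈ L ↔ V i A x := by
  obtain ⟨g, hg⟩ := Pool.Agent.H620R2.Gauge.CC.exists_enum
  choose b hb using fun e : ℕ => Pool.Agent.H620R2.Gauge.CC.act_length (g e).1 (g e).2
  refine ⟨fun e A x => Pool.Agent.H620R2.Gauge.CC.Acc (g e).1
    (Pool.Agent.H620R2.Gauge.CC.cut ((b e).eval x.length) A) x, fun e m => (b e).eval m, ?_,
    fun e => Pool.Agent.W2helper61.Dim.poly_ev (b e), ?_⟩
  · intro e A A' x h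
    have hcut : Pool.Agent.H620R2.Gauge.CC.cut ((b e).eval x.length) A =
        Pool.Agent.H620R2.Gauge.CC.cut ((b e).eval x.length) A' := by
      funext z
      unfold Pool.Agent.H620R2.Gauge.CC.cut
      split_ifs with hz
      · exact h z hz
      · rfl
    simp only [hcut]
  · rintro A L ⟨M, p, hM⟩
    obtain ⟨e, he⟩ := hg (M, p)
    refine ⟨e, fun x => ?_⟩
    have hbe := hb e
    beta_reduce
    rw [he] at hbe ⊢
    obtain ⟨hM1, s, z, hs, hz, hL⟩ := hM x
    have hcong : ∀ s, M.Reach (Pool.Agent.H620R2.Gauge.CC.cut ((b e).eval x.length) A) x s ↔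
        M.Reach A x s := by
      refine Pool.Agent.H620R2.Gauge.CC.reach_congr (fun s => s.length ≤ p.eval x.length) hM1 ?_
      intro s q h1 h2
      have h3 := hbe x s h1
      rw [h2, List.length_cons] at h3
      unfold Pool.Agent.H620R2.Gauge.CC.cut
      rw [if_pos (by omega)]
    constructor
    · intro hx
      refine ⟨s, (hcong s).2 hs, ?_⟩
      rw [hz, hL.1 hx]
    · rintro ⟨t, ht, ht2⟩
      have hst := Pool.Agent.H620R2.Gauge.CC.reach_unique hs ((hcong t).1 ht) ⟨_, hz⟩ ⟨_, ht2⟩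
      rw [hst, ht2] at hz
      simp only [List.cons.injEq, true_and] at hz
      exact hL.2 hz.symm

theorem psenum : PSENUM := by
  obtain ⟨e, he⟩ := Pool.Agent.W2helper61.Mes.exists_enum
  obtain ⟨lb, hlb⟩ := Pool.Agent.W2helper61.Mes.exists_lb e
  obtain ⟨V, lb', h1, h2, h3⟩ := psenum0
  refine ⟨fun i A x => if i % 2 = 0 then Pool.Agent.W2helper61.Mes.Acc (e (i / 2)).1 (e (i / 2)).2 A x
    else V (i / 2) A x, fun i m => if i % 2 = 0 then lb (i / 2) m else lb' (i / 2) m, ?_, ?_, ?_⟩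
  · intro i A A' x h
    by_cases hi : i % 2 = 0
    · simp only [hi, if_true] at h ⊢
      exact hlb.1 _ A A' x h
    · simp only [hi, if_false] at h ⊢
      exact h1 _ A A' x h
  · intro i
    by_cases hi : i % 2 = 0
    · simp only [hi, if_true]
      exact hlb.2 _
    · simp only [hi, if_false]
      exact h2 _
  · rintro A L (⟨W, p, ⟨W', hW'⟩, hL⟩ | hL)
    · obtain ⟨i, hi⟩ := he (W', p)
      refine ⟨2 * i, fun x => ?_⟩
      have e1 : 2 * i % 2 = 0 := by omega
      have e2 : 2 * i / 2 = i := by omega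
      simp only [e1, if_true, e2]
      rw [hL, hi]
      refine exists_congr fun w => and_congr_right fun _ => ?_
      rw [hW', Option.some.injEq]
    · obtain ⟨i, hi⟩ := h3 A L hL
      refine ⟨2 * i + 1, fun x => ?_⟩
      have e1 : ¬ (2 * i + 1) % 2 = 0 := by omega
      have e2 : (2 * i + 1) / 2 = i := by omega
      simp only [e1, if_false, e2]
      exact hi x

end Pool.Agent.W2helper50.MG
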