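import Pool.Agent.W2helper50.MG.Final
import Pool.Agent.W2helper69.MG.Comp
import Pool.Agent.W2helper82.MG.Count
import Pool.Agent.W2helper50.MG.Plant2

/-!
# The theorem
-/

set_option autoImplicit false

namespace Pool.Agent.W2helper50.MG

open Filter Pool.Agent.NPC
open Pool.Agent.H628R3.RO (IsNP)
open Pool.Agent.W2helper61.Mes (ones)
open Pool.Agent.H620R2.Gauge (Oracle Null IsPP IsPHpoly IsPSPACE IsNEXP WithAdviceLen)

theorem done (g : ℕ → ℕ) (hg1 : Monotone g) (hg2 : Tendsto g atTop atTop)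
    (hg3 : UnaryPoly g) (f : ℕ → ℝ)
    (hf : ∀ᶠ N : ℕ in atTop, (g (Nat.log 2 (Nat.log 2 N)) : ℝ) ≤ f N) :
    ¬ Null f {A | Small A} ∧
    ((∀ ε : ℝ, 0 < ε → ∃ᶠ N : ℕ in atTop, f N ≤ (Real.logb 2 (Real.logb 2 N)) ^ ε) →
      ¬ Null f {A | Small A ∧ (∃ L, IsPP A L ∧ ¬ IsPHpoly A L) ∧
        ∀ c : ℝ, c < 1 → ∃ L, IsNEXP A L ∧
          ∀ C : ℝ, ¬ WithAdviceLen (IsNEXP A) (fun n => c * n + C) Lᶜ}) :=
  main Pool.Agent.W2helper69.MG.comp plant2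
    psenum Pool.Agent.W2helper82.MG.count g hg1 hg2 hg3 f hf

end Pool.Agent.W2helper50.MG
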