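import Pool.Agent.W2helper50.MG.Defs
import Pool.Agent.W2helper61.Mes.Str

/-!
# The mixture of the players is a null cover
-/

set_option autoImplicit false

namespace Pool.Agent.W2helper50.MG

open Filter Pool.Agent.NPC Pool.Agent.H628R3.RO
open Pool.Agent.W2helper61.Mes (ones str pre IsDensity Names Approx length_pre)

variable {g : ℕ → ℕ} {v : ℕ → ℕ → ℕ → Bool}

theorem st_mono (hg : Monotone g) : Monotone (st g) := fun _ _ h =>
  Nat.sqrt_le_sqrt (Nat.sqrt_le_sqrt (min_le_min (hg h) h))

theorem st_le (g : ℕ → ℕ) (m : ℕ) : st g m ≤ m :=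
  (Nat.sqrt_le_self _).trans ((Nat.sqrt_le_self _).trans (min_le_right _ _))

theorem st_lt_of_act (hg : Monotone g) {a b : ℕ} (h : a < b) (hb : act g b) :
    st g a < st g b := (st_mono hg (show a ≤ b - 1 by omega)).trans_lt hb

theorem st_injOn (hg : Monotone g) (M : ℕ) :
    Set.InjOn (st g) (((Finset.range M).filter (act g) : Finset ℕ) : Set ℕ) := by
  intro a ha b hb h
  simp only [Finset.coe_filter, Set.mem_ofPred_eq] at ha hb
  rcases lt_trichotomy a b with h1 | h1 | h1
  · exact absurd h (st_lt_of_act hg h1 hb.2).ne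
  · exact h1
  · exact absurd h (st_lt_of_act hg h1 ha.2).ne'

theorem sum_half (n : ℕ) : ∑ i ∈ Finset.range n, ((1 : ℝ) / 2) ^ i ≤ 2 := by
  have h : ∑ i ∈ Finset.range n, ((1 : ℝ) / 2) ^ i = 2 - 2 * (1 / 2) ^ n := by
    induction n with
    | zero => simp
    | succ n ih => rw [Finset.sum_range_succ, ih, pow_succ]; ring
  rw [h]
  have : (0 : ℝ) < (1 / 2) ^ n := by positivity
  linarith

theorem sum_wt (hg : Monotone g) (M : ℕ) : ∑ m ∈ (Finset.range M).filter (act g),
    ∑ i ∈ Finset.range (st g m), ((1 : ℝ) / 2) ^ (i + st g m + 2) ≤ 1 := by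
  classical
  have h1 : ∀ m, ∑ i ∈ Finset.range (st g m), ((1 : ℝ) / 2) ^ (i + st g m + 2) ≤
      (1 / 2) ^ (st g m) * (1 / 2) := by
    intro m
    have h2 : ∑ i ∈ Finset.range (st g m), ((1 : ℝ) / 2) ^ (i + st g m + 2) =
        (1 / 2) ^ (st g m) * (1 / 4) * ∑ i ∈ Finset.range (st g m), ((1 : ℝ) / 2) ^ i := by
      rw [Finset.mul_sum]
      refine Finset.sum_congr rfl fun i _ => ?_
      rw [pow_add, pow_add]
      ring
    rw [h2]
    have h3 := sum_half (st g m)
    have h4 : (0 : ℝ) < (1 / 2) ^ (st g m) := by positivity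
    nlinarith
  refine (Finset.sum_le_sum fun m _ => h1 m).trans ?_
  rw [← Finset.sum_mul]
  have h5 : ∑ m ∈ (Finset.range M).filter (act g), ((1 : ℝ) / 2) ^ (st g m) =
      ∑ l ∈ ((Finset.range M).filter (act g)).image (st g), ((1 : ℝ) / 2) ^ l := by
    rw [Finset.sum_image (st_injOn hg M)]
  have h6 : ((Finset.range M).filter (act g)).image (st g) ⊆ Finset.range (M + 1) := by
    intro l hl
    obtain ⟨m, hm, rfl⟩ := Finset.mem_image.1 hl
    have h7 := Finset.mem_range.1 (Finset.mem_filter.1 hm).1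
    have h8 := st_le g m
    exact Finset.mem_range.2 (by omega)
  rw [h5]
  have h7 := (Finset.sum_le_sum_of_subset_of_nonneg h6 (f := fun l => ((1 : ℝ) / 2) ^ l)
    fun _ _ _ => by positivity).trans (sum_half (M + 1))
  linarith

/-! ### One player -/

theorem EN_pos {m i : ℕ} {w : List Bool} (h : Agr g v m i w) :
    EN g v m i w = 2 ^ (min (3 * st g m) (w.length - (2 ^ m - 1))) := by
  unfold EN
  exact if_pos h

theorem EN_neg {m i : ℕ} {w : List Bool} (h : ¬ Agr g v m i w) : EN g v m i w = 0 := by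
  unfold EN
  exact if_neg h

theorem EN_one {m i : ℕ} {w : List Bool} (h : w.length < 2 ^ m) : EN g v m i w = 1 := by
  rw [EN_pos fun t _ ht => by omega]
  have : w.length - (2 ^ m - 1) = 0 := by omega
  rw [this, Nat.min_zero, pow_zero]

theorem agr_snoc {m i : ℕ} {w : List Bool} {b : Bool} : Agr g v m i (w ++ [b]) ↔
    Agr g v m i w ∧ (2 ^ m - 1 ≤ w.length → w.length < 2 ^ m - 1 + 3 * st g m →
      b = v m i (w.length - (2 ^ m - 1))) := by
  unfold Agr
  constructor
  · intro h
    refine ⟨fun t ht hw => ?_, fun h1 h2 => ?_⟩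
    · have := h t ht (by rw [List.length_append]; simp; omega)
      rwa [List.getD_append _ _ _ _ hw] at this
    · have := h (w.length - (2 ^ m - 1)) (by omega) (by rw [List.length_append]; simp; omega)
      have e : 2 ^ m - 1 + (w.length - (2 ^ m - 1)) = w.length := by omega
      rw [e, List.getD_append_right _ _ _ _ le_rfl] at this
      simpa using this
  · rintro ⟨h1, h2⟩ t ht hw
    rw [List.length_append, List.length_singleton] at hw
    rcases Nat.lt_or_ge (2 ^ m - 1 + t) w.length with h3 | h3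
    · rw [List.getD_append _ _ _ _ h3]
      exact h1 t ht h3
    · have e : 2 ^ m - 1 + t = w.length := by omega
      rw [e, List.getD_append_right _ _ _ _ le_rfl]
      have := h2 (by omega) (by omega)
      rw [show w.length - (2 ^ m - 1) = t by omega] at this
      simpa using this

theorem EN_split (m i : ℕ) (w : List Bool) :
    EN g v m i (w ++ [false]) + EN g v m i (w ++ [true]) = 2 * EN g v m i w := by
  by_cases hA : Agr g v m i w
  swap
  · rw [EN_neg hA, EN_neg fun h => hA (agr_snoc.1 h).1, EN_neg fun h => hA (agr_snoc.1 h).1]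
  have hl : ∀ b : Bool, (w ++ [b]).length = w.length + 1 := fun b => by simp
  by_cases hw : 2 ^ m - 1 ≤ w.length ∧ w.length < 2 ^ m - 1 + 3 * st g m
  · have h1 : min (3 * st g m) (w.length + 1 - (2 ^ m - 1)) =
        min (3 * st g m) (w.length - (2 ^ m - 1)) + 1 := by omega
    cases hv : v m i (w.length - (2 ^ m - 1))
    · have hT : Agr g v m i (w ++ [false]) := agr_snoc.2 ⟨hA, fun _ _ => hv.symm⟩
      have hF : ¬ Agr g v m i (w ++ [true]) := fun h => by
        have := (agr_snoc.1 h).2 hw.1 hw.2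
        rw [hv] at this
        exact absurd this (by simp)
      rw [EN_pos hT, EN_neg hF, EN_pos hA, hl, h1, pow_succ]
      ring
    · have hT : Agr g v m i (w ++ [true]) := agr_snoc.2 ⟨hA, fun _ _ => hv.symm⟩
      have hF : ¬ Agr g v m i (w ++ [false]) := fun h => by
        have := (agr_snoc.1 h).2 hw.1 hw.2
        rw [hv] at this
        exact absurd this (by simp)
      rw [EN_pos hT, EN_neg hF, EN_pos hA, hl, h1, pow_succ]
      ring
  · have h1 : min (3 * st g m) (w.length + 1 - (2 ^ m - 1)) =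
        min (3 * st g m) (w.length - (2 ^ m - 1)) := by omega
    have h2 : ∀ b : Bool, Agr g v m i (w ++ [b]) := fun b =>
      agr_snoc.2 ⟨hA, fun h3 h4 => (hw ⟨h3, h4⟩).elim⟩
    rw [EN_pos (h2 _), EN_pos (h2 _), EN_pos hA, hl, hl, h1, two_mul]

/-! ### The mixture -/

theorem dd_eq (k : ℕ) {w : List Bool} {M : ℕ} (hM : w.length.size ≤ M) :
    dd g v k w = (1 / 2) ^ k * (1 + ∑ m ∈ (Finset.range M).filter (act g),
      ∑ i ∈ Finset.range (st g m), (1 / 2) ^ (i + st g m + 2) * ((EN g v m i w : ℝ) - 1)) := by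
  unfold dd
  congr 2
  refine Finset.sum_subset (fun m hm => ?_) fun m hm hm' => ?_
  · rw [Finset.mem_filter, Finset.mem_range] at hm ⊢
    exact ⟨by omega, hm.2⟩
  · rw [Finset.mem_filter, Finset.mem_range] at hm hm'
    have h1 : w.length.size ≤ m := by
      by_contra h
      exact hm' ⟨by omega, hm.2⟩
    have h2 : w.length < 2 ^ m := Nat.size_le.1 h1
    refine Finset.sum_eq_zero fun i _ => ?_
    rw [EN_one h2]
    simp

theorem dd_ge (hg : Monotone g) (k : ℕ) {w : List Bool} {m i : ℕ} (hm : act g m)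
    (hi : i < st g m) (hw : 2 ^ m ≤ w.length) :
    (1 / 2) ^ k * ((1 / 2) ^ (i + st g m + 2) * (EN g v m i w : ℝ)) ≤ dd g v k w := by
  unfold dd
  have h0 : (0 : ℝ) < (1 / 2) ^ k := by positivity
  refine mul_le_mul_of_nonneg_left ?_ h0.le
  have h1 := sum_wt hg w.length.size
  have h2 : ∑ m ∈ (Finset.range w.length.size).filter (act g),
      ∑ i ∈ Finset.range (st g m), ((1 : ℝ) / 2) ^ (i + st g m + 2) * ((EN g v m i w : ℝ) - 1) =
      ∑ m ∈ (Finset.range w.length.size).filter (act g),
      ∑ i ∈ Finset.range (st g m), ((1 : ℝ) / 2) ^ (i + st g m + 2) * (EN g v m i w : ℝ) -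
      ∑ m ∈ (Finset.range w.length.size).filter (act g),
      ∑ i ∈ Finset.range (st g m), ((1 : ℝ) / 2) ^ (i + st g m + 2) := by
    rw [← Finset.sum_sub_distrib]
    refine Finset.sum_congr rfl fun m _ => ?_
    rw [← Finset.sum_sub_distrib]
    exact Finset.sum_congr rfl fun i _ => by ring
  have hn : ∀ m i : ℕ, (0 : ℝ) ≤ (1 / 2) ^ (i + st g m + 2) * (EN g v m i w : ℝ) :=
    fun m i => by positivity
  have h3 : ((1 : ℝ) / 2) ^ (i + st g m + 2) * (EN g v m i w : ℝ) ≤
      ∑ m ∈ (Finset.range w.length.size).filter (act g),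
      ∑ i ∈ Finset.range (st g m), ((1 : ℝ) / 2) ^ (i + st g m + 2) * (EN g v m i w : ℝ) := by
    refine le_trans ?_ (Finset.single_le_sum (f := fun m => ∑ i ∈ Finset.range (st g m),
      ((1 : ℝ) / 2) ^ (i + st g m + 2) * (EN g v m i w : ℝ))
      (fun m _ => Finset.sum_nonneg fun i _ => hn m i)
      (Finset.mem_filter.2 ⟨Finset.mem_range.2 (Nat.lt_size.2 hw), hm⟩))
    exact Finset.single_le_sum (f := fun i => ((1 : ℝ) / 2) ^ (i + st g m + 2) *
      (EN g v m i w : ℝ)) (fun i _ => hn m i) (Finset.mem_range.2 hi)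
  rw [h2]
  linarith

theorem dd_nonneg (hg : Monotone g) (k : ℕ) (w : List Bool) : 0 ≤ dd g v k w := by
  unfold dd
  have h0 : (0 : ℝ) < (1 / 2) ^ k := by positivity
  refine mul_nonneg h0.le ?_
  have h1 := sum_wt hg w.length.size
  have h2 : -∑ m ∈ (Finset.range w.length.size).filter (act g),
      ∑ i ∈ Finset.range (st g m), ((1 : ℝ) / 2) ^ (i + st g m + 2) ≤
      ∑ m ∈ (Finset.range w.length.size).filter (act g),
      ∑ i ∈ Finset.range (st g m), ((1 : ℝ) / 2) ^ (i + st g m + 2) *
        ((EN g v m i w : ℝ) - 1) := by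
    rw [← Finset.sum_neg_distrib]
    refine Finset.sum_le_sum fun m _ => ?_
    rw [← Finset.sum_neg_distrib]
    refine Finset.sum_le_sum fun i _ => ?_
    have h3 : (0 : ℝ) < (1 / 2) ^ (i + st g m + 2) := by positivity
    have h4 : (0 : ℝ) ≤ (EN g v m i w : ℝ) := by positivity
    nlinarith
  linarith

theorem dd_nil (k : ℕ) : dd g v k [] = (1 / 2) ^ k := by
  unfold dd
  simp

theorem dd_split (k : ℕ) (w : List Bool) :
    dd g v k (w ++ [false]) + dd g v k (w ++ [true]) = 2 * dd g v k w := by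
  have hs : w.length.size ≤ (w.length + 1).size := Nat.size_le_size (Nat.le_succ _)
  rw [dd_eq k hs, dd_eq (w := w ++ [false]) k (M := (w.length + 1).size) (by simp),
    dd_eq (w := w ++ [true]) k (M := (w.length + 1).size) (by simp)]
  have h : ∑ m ∈ (Finset.range (w.length + 1).size).filter (act g),
      ∑ i ∈ Finset.range (st g m), ((1 : ℝ) / 2) ^ (i + st g m + 2) *
        ((EN g v m i (w ++ [false]) : ℝ) - 1) +
      ∑ m ∈ (Finset.range (w.length + 1).size).filter (act g),
      ∑ i ∈ Finset.range (st g m), ((1 : ℝ) / 2) ^ (i + st g m + 2) *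
        ((EN g v m i (w ++ [true]) : ℝ) - 1) =
      2 * ∑ m ∈ (Finset.range (w.length + 1).size).filter (act g),
      ∑ i ∈ Finset.range (st g m), ((1 : ℝ) / 2) ^ (i + st g m + 2) *
        ((EN g v m i w : ℝ) - 1) := by
    rw [← Finset.sum_add_distrib, Finset.mul_sum]
    refine Finset.sum_congr rfl fun m _ => ?_
    rw [← Finset.sum_add_distrib, Finset.mul_sum]
    refine Finset.sum_congr rfl fun i _ => ?_
    have h1 := EN_split (g := g) (v := v) m i w
    have h2 : (EN g v m i (w ++ [false]) : ℝ) + EN g v m i (w ++ [true]) = 2 * EN g v m i w := by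
      exact_mod_cast h1
    have h3 : (EN g v m i (w ++ [true]) : ℝ) = 2 * EN g v m i w - EN g v m i (w ++ [false]) := by
      linarith
    rw [h3]
    ring
  linear_combination ((1 : ℝ) / 2) ^ k * h

theorem isDensity_dd (hg : Monotone g) (k : ℕ) : IsDensity (dd g v k) :=
  ⟨dd_nonneg hg k, fun w => by rw [dd_split]; linarith⟩

theorem st_tendsto (htop : Tendsto g atTop atTop) : Tendsto (st g) atTop atTop := by
  have h1 : Tendsto (fun m => min (g m) m) atTop atTop := by
    rw [tendsto_atTop]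
    intro b
    filter_upwards [tendsto_atTop.1 htop b, eventually_ge_atTop b] with m h1 h2
    exact le_min h1 h2
  have h2 : Tendsto Nat.sqrt atTop atTop := by
    rw [tendsto_atTop]
    intro b
    filter_upwards [eventually_ge_atTop (b * b)] with m hm
    exact Nat.le_sqrt.2 hm
  exact h2.comp (h2.comp h1)

theorem freq_act (hg : Monotone g) (htop : Tendsto g atTop atTop) : ∃ᶠ m in atTop, act g m := by
  rw [frequently_atTop]
  intro a
  obtain ⟨b, hb⟩ := (tendsto_atTop.1 (st_tendsto htop) (st g a + 1)).exists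
  classical
  have hex : ∃ m, st g a < st g m := ⟨b, hb⟩
  refine ⟨Nat.find hex, ?_, ?_⟩
  · by_contra h
    exact absurd (Nat.find_spec hex) (not_lt.2 (st_mono hg (by omega)))
  · have h1 := Nat.find_spec hex
    have h2 : Nat.find hex ≠ 0 := by
      intro h0
      rw [h0] at h1
      exact absurd h1 (not_lt.2 (st_mono hg (Nat.zero_le _)))
    have h3 := Nat.find_min hex (m := Nat.find hex - 1) (by omega)
    exact (not_lt.1 h3).trans_lt h1

theorem cover (hg : Monotone g) (htop : Tendsto g atTop atTop) {L : Set (List Bool)} {i : ℕ}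
    (h : ∀ᶠ m in atTop, act g m → ∀ t < 3 * st g m,
      (v m i t = true ↔ str (2 ^ m - 1 + t) ∈ L)) (k : ℕ) : ∃ n, 1 ≤ dd g v k (pre L n) := by
  classical
  obtain ⟨m, hm, h1, h2⟩ := ((freq_act hg htop).and_eventually (h.and
    (tendsto_atTop.1 (st_tendsto htop) (k + i + 2)))).exists
  refine ⟨2 ^ m + 3 * st g m, ?_⟩
  have hlen : (pre L (2 ^ m + 3 * st g m)).length = 2 ^ m + 3 * st g m := length_pre _ _
  refine le_trans ?_ (dd_ge hg k hm (show i < st g m by omega) (by rw [hlen]; omega))
  have hE : EN g v m i (pre L (2 ^ m + 3 * st g m)) = 2 ^ (3 * st g m) := by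
    unfold EN
    rw [if_pos, hlen, min_eq_left]
    · have := Nat.one_le_two_pow (n := m)
      omega
    · intro t ht hw
      rw [hlen] at hw
      have h3 : (pre L (2 ^ m + 3 * st g m)).getD (2 ^ m - 1 + t) false =
          decide (str (2 ^ m - 1 + t) ∈ L) := by
        unfold Pool.Agent.W2helper61.Mes.pre
        rw [List.getD_eq_getElem _ _ (by simpa using hw)]
        simp
      rw [h3, Bool.eq_iff_iff, decide_eq_true_iff]
      exact (h1 hm t ht).symm
  rw [hE]
  push_cast
  rw [← mul_assoc, ← pow_add, one_div, inv_pow, ← div_eq_inv_mul, le_div_iff₀ (by positivity),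
    one_mul]
  exact pow_le_pow_right₀ (by norm_num) (by omega)

end Pool.Agent.W2helper50.MG
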