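import Pool.Agent.H620R2.Gauge.M

/-!
# Oracles with few planted bits are not null
-/

set_option autoImplicit false

namespace Pool.Agent.W2helper50.MG

open Pool.Agent.NPC Finset Pool.Agent.H620R2.Gauge

open Classical in
theorem not_null_of_sparse (f : ℕ → ℝ) (Φ : Oracle → Oracle) (T : Set (List Bool))
    (hΦ : ∀ B, ∀ y ∉ T, Φ B y = B y)
    (hf : ∀ᶠ N : ℕ in Filter.atTop,
      (((Finset.range N).filter (fun i => str i ∈ T)).card : ℝ) ≤ f N)
    (O : Set Oracle) (hO : ∀ B, Φ B ∈ O) : ¬ Null f O := by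
  intro hnull
  obtain ⟨N₀, hN₀⟩ := Filter.eventually_atTop.1 hf
  -- the bound for the short sequences
  obtain ⟨δ, hδ, hδ1, hδ2⟩ : ∃ δ : ℝ, 0 < δ ∧ δ < 1 ∧
      ∀ N < N₀, δ < 2 ^ (f N - N) := by
    have h1 : ∀ M : ℕ, ∃ δ : ℝ, 0 < δ ∧ δ < 1 ∧ ∀ N < M, δ < 2 ^ (f N - N) := by
      intro M
      induction M with
      | zero => exact ⟨1 / 2, by norm_num, by norm_num, fun N hN => by omega⟩
      | succ M ih =>
        obtain ⟨δ, h1, h2, h3⟩ := ih
        have h4 : (0 : ℝ) < 2 ^ (f M - M) := Real.rpow_pos_of_pos (by norm_num) _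
        refine ⟨min δ (2 ^ (f M - M) / 2), lt_min h1 (by positivity),
          (min_le_left _ _).trans_lt h2, ?_⟩
        intro N hN
        rcases Nat.lt_succ_iff_lt_or_eq.1 hN with h | h
        · exact (min_le_left _ _).trans_lt (h3 N h)
        · subst h
          exact (min_le_right _ _).trans_lt (by linarith)
    exact h1 N₀
  obtain ⟨S, hS, hsum⟩ := hnull δ hδ
  have hm := mass Φ T hΦ S (fun B => hS (Φ B) (hO B))
  have hle : ∀ σ : S, ENNReal.ofReal
      (2 ^ ((((Finset.range σ.1.length).filter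
        (fun i => str i ∈ T)).card : ℝ) - (σ.1.length : ℝ))) ≤
      ENNReal.ofReal (2 ^ (f σ.1.length - σ.1.length)) := by
    intro σ
    have hlen : N₀ ≤ σ.1.length := by
      by_contra hlt
      push Not at hlt
      have h1 := hδ2 _ hlt
      have h2 : ENNReal.ofReal (2 ^ (f σ.1.length - σ.1.length)) ≤ ENNReal.ofReal δ :=
        (ENNReal.le_tsum σ).trans hsum
      have h3 := (ENNReal.ofReal_le_ofReal_iff hδ.le).1 h2
      linarith
    have h2 := hN₀ _ hlen
    apply ENNReal.ofReal_le_ofReal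
    apply Real.rpow_le_rpow_of_exponent_le (by norm_num)
    linarith
  have h1 : (1 : ENNReal) ≤ ENNReal.ofReal δ := hm.trans ((ENNReal.tsum_le_tsum hle).trans hsum)
  rw [← ENNReal.ofReal_one] at h1
  have h2 := (ENNReal.ofReal_le_ofReal_iff hδ.le).1 h1
  linarith

end Pool.Agent.W2helper50.MG
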