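import Pool.Agent.W2helper50.MG.Defs
import Pool.Agent.W2helper61.Mes.Null
import Pool.Agent.H620R2.Gauge.Defs

/-!
# The pieces for PSPACE in place of NP (exact statements)
-/

set_option autoImplicit false

namespace Pool.Agent.W2helper50.MG

open Filter Pool.Agent.NPC
open Pool.Agent.H620R2.Gauge (Oracle IsPSPACE)
open Pool.Agent.W2helper61.Mes (str)

/-- the acceptance of `x` by machine `i` depends only on the strings of length at most
`lb i x.length` -/
def Local (V : ℕ → Oracle → List Bool → Prop) (lb : ℕ → ℕ → ℕ) : Prop :=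
  ∀ i (A A' : Oracle) (x : List Bool),
    (∀ v : List Bool, v.length ≤ lb i x.length → A v = A' v) → (V i A x ↔ V i A' x)

/-- PLANT2: the same proof as PLANT. -/
def PLANT2 : Prop := ∀ (g : ℕ → ℕ) (V : ℕ → Oracle → List Bool → Prop) (lb : ℕ → ℕ → ℕ), Local V lb →
  ∃ Φ : Oracle → Oracle, (∀ B, ∀ y ∉ PL g, Φ B y = B y) ∧
    ∀ B m i t, act g m → i < st g m → t < 3 * st g m → t < 2 ^ m → lb i m ≤ 2 ^ m →
      (Φ B (pl m i t) = true ↔ V i (Φ B) (str (2 ^ m - 1 + t)))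

/-- PSENUM. -/
def PSENUM : Prop := ∃ (V : ℕ → Oracle → List Bool → Prop) (lb : ℕ → ℕ → ℕ), Local V lb ∧
  (∀ i, ∀ᶠ m in atTop, lb i m ≤ 2 ^ m) ∧
  ∀ (A : Oracle) (L : Set (List Bool)), (Pool.Agent.H628R3.RO.IsNP A L ∨ IsPSPACE A L) →
    ∃ i, ∀ x, x ∈ L ↔ V i A x

end Pool.Agent.W2helper50.MG
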