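import Pool.Agent.W2helper50.MG.Stm
import Pool.Agent.W2helper50.MG.Stm2
import Pool.Agent.W2helper50.MG.Mart
import Pool.Agent.W2helper50.MG.NonNull
import Pool.Agent.W2helper61.Dim.Final
import Pool.Agent.W2helper57.NEX.Asym
import Pool.Agent.W2helper57.NEX.Gap
import Pool.Agent.W2helper57.PPH.Lang
import Pool.Agent.H620R2.Gauge.Cover
import Pool.Agent.H620R2.Gauge2.Null

/-!
# The oracles relative to which NP is small are many
-/

set_option autoImplicit false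

namespace Pool.Agent.W2helper50.MG

open Filter Pool.Agent.NPC
open Pool.Agent.H628R3.RO (IsNP)
open Pool.Agent.W2helper61.Mes (ones str pre IsDensity Names Approx LB Acc NullP NullP2 InE InE2
  exists_enum exists_lb IsNullCover length_str_eq)
open Pool.Agent.H620R2.Gauge (Oracle Null IsPP IsPHpoly IsPSPACE IsNEXP WithAdviceLen)

/-- `PSPACE` and `NP` are small relative to `A`: they have `p`-measure zero, and the measures of
`NP` in `E` and in `E₂` are zero -/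
def Small (A : Oracle) : Prop :=
  NullP A {L | IsPSPACE A L} ∧ NullP A {L | IsNP A L} ∧ NullP A {L | IsNP A L ∧ InE A L} ∧
    NullP2 A {L | IsNP A L ∧ InE2 A L}

theorem small_of {A : Oracle} (h : NullP A {L | IsNP A L ∨ IsPSPACE A L}) : Small A := by
  have h1 : NullP A {L | IsNP A L} :=
    Pool.Agent.W2helper61.Dim.NullP_mono h fun _ h => Or.inl h
  exact ⟨Pool.Agent.W2helper61.Dim.NullP_mono h fun _ h => Or.inr h, h1,
    Pool.Agent.W2helper61.Dim.NullP_mono h1 fun _ h => h.1,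
    Pool.Agent.W2helper61.Dim.nullP2_of (Pool.Agent.W2helper61.Dim.NullP_mono h1 fun _ h => h.1)⟩

theorem not_null_small (hC : COMP) (hP : PLANT2) (hE : PSENUM) (hN : COUNT) {g : ℕ → ℕ}
    (hg1 : Monotone g) (hg2 : Tendsto g atTop atTop) (hg3 : UnaryPoly g) {f : ℕ → ℝ}
    (hf : ∀ᶠ N : ℕ in atTop, (g (Nat.log 2 (Nat.log 2 N)) : ℝ) ≤ f N) :
    ¬ Null f {A | Small A} := by
  classical
  obtain ⟨V, lb, hloc, hlb, hV⟩ := hE
  obtain ⟨Φ, h1, h2⟩ := hP g V lb hloc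
  refine not_null_of_sparse f Φ (PL g) h1 ?_ _ fun B => small_of ?_
  · filter_upwards [hf, hN g hg1 hg2] with N h3 h4
    refine le_trans ?_ h3
    exact_mod_cast h4
  obtain ⟨F, hF1, hF2⟩ := hC g hg1 hg3 (Φ B)
  refine ⟨dd g (fun m i t => Φ B (pl m i t)), F, ⟨fun k => isDensity_dd hg1 k,
    fun k => (dd_nil k).le, ?_⟩, hF1, hF2⟩
  intro k L hL
  obtain ⟨i, hi⟩ := hV (Φ B) L hL
  have h3 : ∀ᶠ m : ℕ in atTop, 3 * st g m ≤ 2 ^ m := by
    filter_upwards [eventually_ge_atTop 4] with m hm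
    have h5 : ∀ m : ℕ, 4 ≤ m → 3 * m ≤ 2 ^ m := by
      intro m hm
      induction m, hm using Nat.le_induction with
      | base => norm_num
      | succ n hn ih => rw [pow_succ]; omega
    have := st_le g m
    have := h5 m hm
    omega
  refine cover hg1 hg2 (i := i) ?_ k
  filter_upwards [h3, hlb i, tendsto_atTop.1 (st_tendsto hg2) (i + 1)] with m h4 h5 h6 hm t ht
  rw [hi]
  exact h2 B m i t hm (by omega) ht (by omega) h5

/-- The gauge is small compared with the gauges for `NEXP = coNEXP`. -/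
theorem null_exp {f : ℕ → ℝ}
    (hf : ∀ ε : ℝ, 0 < ε → ∃ᶠ N : ℕ in atTop, f N ≤ (Real.logb 2 (Real.logb 2 N)) ^ ε) :
    Null f {A : Oracle | ∃ c : ℝ, c < 1 ∧ ∀ L, IsNEXP A L → ∃ C : ℝ,
      WithAdviceLen (IsNEXP A) (fun n => c * n + C) Lᶜ} := by
  refine Pool.Agent.H620R2.Gauge.nullNE f hf _ ?_
  rintro A ⟨c, hc, h⟩
  have h3 : Pool.Agent.H620R2.Gauge.Gp.Lin A c := h
  exact ⟨1 / 4, by norm_num, Pool.Agent.H620R2.Gauge.Gp.lin_gap hc h3 (by norm_num) _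
    (Pool.Agent.H620R2.Gauge.isNEXP_tribes A)⟩

theorem null_pp {f : ℕ → ℝ}
    (hf : ∀ ε : ℝ, 0 < ε → ∃ᶠ N : ℕ in atTop, f N ≤ (Real.logb 2 (Real.logb 2 N)) ^ ε) :
    Null f {A : Oracle | ∀ L, IsPP A L → IsPHpoly A L} := by
  refine Pool.Agent.H620R2.Gauge.null_of_frequently f (fun ε hε => ?_) _ fun A hA =>
    Pool.Agent.H620R2.Gauge.parLang_of_lang (hA _ (Pool.Agent.H620R2.Gauge.Thr.isPP_lang A))
  refine (hf ε hε).and_eventually (eventually_ge_atTop 2) |>.mono ?_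
  rintro N ⟨h1, h2⟩
  refine h1.trans ?_
  have h2' : (2 : ℝ) ≤ N := by exact_mod_cast h2
  have h3 : 1 ≤ Real.logb 2 N := by
    rw [Real.le_logb_iff_rpow_le (by norm_num) (by linarith)]
    simpa using h2'
  have h4 : Real.logb 2 (Real.logb 2 N) ≤ Real.logb 2 N := by
    have h5 : (0 : ℝ) < Real.logb 2 N := by linarith
    rw [Real.logb_le_iff_le_rpow (by norm_num) h5]
    have h6 := one_add_mul_self_le_rpow_one_add (s := 1) (by norm_num) h3
    norm_num at h6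
    linarith
  have h5 : 0 ≤ Real.logb 2 (Real.logb 2 N) := Real.logb_nonneg (by norm_num) h3
  refine (Real.rpow_le_rpow h5 h4 hε.le).trans ?_
  have h6 : 1 ≤ (Real.logb 2 N) ^ ε := Real.one_le_rpow h3 hε.le
  have h7 := one_add_mul_self_le_rpow_one_add (s := 1) (by norm_num) h6
  norm_num at h7
  linarith

theorem main (hC : COMP) (hP : PLANT2) (hE : PSENUM) (hN : COUNT) (g : ℕ → ℕ) (hg1 : Monotone g)
    (hg2 : Tendsto g atTop atTop) (hg3 : UnaryPoly g) (f : ℕ → ℝ)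
    (hf : ∀ᶠ N : ℕ in atTop, (g (Nat.log 2 (Nat.log 2 N)) : ℝ) ≤ f N) :
    ¬ Null f {A | Small A} ∧
    ((∀ ε : ℝ, 0 < ε → ∃ᶠ N : ℕ in atTop, f N ≤ (Real.logb 2 (Real.logb 2 N)) ^ ε) →
      ¬ Null f {A | Small A ∧ (∃ L, IsPP A L ∧ ¬ IsPHpoly A L) ∧
        ∀ c : ℝ, c < 1 → ∃ L, IsNEXP A L ∧
          ∀ C : ℝ, ¬ WithAdviceLen (IsNEXP A) (fun n => c * n + C) Lᶜ}) := by
  have h0 := not_null_small hC hP hE hN hg1 hg2 hg3 hf
  refine ⟨h0, fun hs hn => h0 ?_⟩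
  refine (Pool.Agent.H620R2.Gauge.null_union hn
    (Pool.Agent.H620R2.Gauge.null_union (null_pp hs) (null_exp hs))).mono fun A hA => ?_
  by_cases h1 : ∀ L, IsPP A L → IsPHpoly A L
  · exact Or.inr (Or.inl h1)
  by_cases h2 : ∃ c : ℝ, c < 1 ∧ ∀ L, IsNEXP A L → ∃ C : ℝ,
      WithAdviceLen (IsNEXP A) (fun n => c * n + C) Lᶜ
  · exact Or.inr (Or.inr h2)
  left
  push Not at h1 h2
  exact ⟨hA, h1, h2⟩

end Pool.Agent.W2helper50.MG
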