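import Pool.Agent.W2helper50.MG.Defs
import Pool.Agent.W2helper61.Mes.Null
import Pool.Agent.H620R2.Gauge.Defs

/-!
# The pieces (exact statements, with proofs in words)
-/

set_option autoImplicit false

namespace Pool.Agent.W2helper50.MG

open Filter Pool.Agent.NPC Pool.Agent.H628R3.RO
open Pool.Agent.W2helper61.Mes (ones str pre IsDensity Names Approx LB Acc)

/-- COMP. Proof in words. For `u = pairBits (ones k) (pairBits (ones r) w)` let `S = w.length.size`
(so `m < S ↔ 2 ^ m ≤ w.length`, `Nat.lt_size`). Use `IsFP.tt` (H628R3/RO/A2): the queries are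
`Q u = (List.range (S * S * (3 * S))).map fun j => pl (j / (3 * S * S)) ((j / (3 * S)) % S) (j % (3 * S))`
(all lengths are at most `2 * w.length`, so `replicate` has unary polynomial counts: `2 ^ m` is
`valB (List.replicate m false ++ [true])`, bounded by `w.length` with `min`), and `v m i t` is
`answers.getD ((m * S + i) * (3 * S) + t) false`. With `n = w.length` the number
`2 ^ (2 * n + 4) * (1 + ∑ ...)` is the natural number
`(2 ^ (2n+4) + ∑ m i, 2 ^ (2n+4 - (i + st m + 2)) * EN) - ∑ m i, 2 ^ (2n+4 - (i + st m + 2))`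
(nonnegative, see `dd_nonneg` in MG/Mart), computed with `Poly.sum`, `Poly.mul`, `Poly.sub`
(NPC/Num). The output is `false :: pairBits (its bits) (ones (k + 2 * n + 4))`; it names `dd` exactly.
`st g m` is unary polynomial-time from `hg` (`Nat.sqrt` of a unary number by
a search: the number of `j < n` with `0 < j ∧ j * j ≤ n`). -/
def COMP : Prop := ∀ (g : ℕ → ℕ), Monotone g → UnaryPoly g → ∀ A : Oracle,
  ∃ F : List Bool → List Bool, IsFP A F ∧ Approx F (dd g (fun m i t => A (pl m i t)))

/-- PLANT. Proof in words: the value of `Φ B` at `pl m i t` is determined by the values at strings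
of length at most `lb i m ≤ 2 ^ m < length (pl m i t)`; fixed point by recursion on the length, as
`exists_guide` in W2helper61/Mes/Null. `pl` is injective (`rep_inj` in H620R2/Gauge/C). -/
def PLANT : Prop := ∀ (g : ℕ → ℕ) (e : ℕ → Alg × Polynomial ℕ) (lb : ℕ → ℕ → ℕ), LB e lb →
  ∃ Φ : Oracle → Oracle, (∀ B, ∀ y ∉ PL g, Φ B y = B y) ∧
    ∀ B m i t, act g m → i < st g m → t < 3 * st g m → t < 2 ^ m → lb i m ≤ 2 ^ m →
      (Φ B (pl m i t) = true ↔ Acc (e i).1 (e i).2 (Φ B) (str (2 ^ m - 1 + t)))

open Classical in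
/-- COUNT. Proof in words: if `j < N` and `Gauge.str j = pl m i t` then the length of `pl m i t`, more
than `2 ^ m`, is at most `log₂ N`, so `m ≤ M = log₂ log₂ N`. `act` lengths have different values of
`st` (`st` is monotone), all at most `s = st g M`. So there are at most `s + 1` lengths `m`, `s` values `i`
and `3 s` values `t`, together `3 s ^ 2 (s + 1) ≤ s ^ 4 ≤ g M` as soon as `s ≥ 4`. -/
def COUNT : Prop := ∀ (g : ℕ → ℕ), Monotone g → Tendsto g atTop atTop →
  ∀ᶠ N : ℕ in atTop, ((Finset.range N).filter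
    (fun j => Pool.Agent.H620R2.Gauge.str j ∈ PL g)).card ≤ g (Nat.log 2 (Nat.log 2 N))

end Pool.Agent.W2helper50.MG
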